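import Mathlib

namespace Pool.Agent.Eul

/-- Eulerian numbers in the indexing of the problem: `E n k = A(n+1, k)` is the number of
permutations of `n + 1` elements with `k` descents, given by the standard recurrence
`A(n+2, k+1) = (k+2) A(n+1, k+1) + (n+1-k) A(n+1, k)`, `A(1, 0) = 1`. -/
def E : ℕ → ℕ → ℕ
  | 0, 0 => 1
  | 0, _ + 1 => 0
  | n + 1, 0 => E n 0
  | n + 1, k + 1 => (k + 2) * E n (k + 1) + (n + 1 - k) * E n k

/-- `D(i, j, r)`: the minor on the consecutive rows `i, …, i+r` and columns `j, …, j+r`. -/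
def D (i j r : ℕ) : ℤ :=
  Matrix.det (Matrix.of fun a b : Fin (r + 1) => ((E (i + (a : ℕ)) (j + (b : ℕ)) : ℕ) : ℤ))

end Pool.Agent.Eul
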