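import Mathlib
import Pool.Agent.Eul.Defs

namespace Pool.Agent.Eul

/-- Eulerian numbers with integer column index -/
def e : ℕ → ℤ → ℤ
  | 0, k => if k = 0 then 1 else 0
  | n + 1, k => (k + 1) * e n k + ((n : ℤ) + 2 - k) * e n (k - 1)

lemma e_succ (n : ℕ) (k : ℤ) :
    e (n + 1) k = (k + 1) * e n k + ((n : ℤ) + 2 - k) * e n (k - 1) := rfl

lemma e_neg (n : ℕ) : ∀ k : ℤ, k < 0 → e n k = 0 := by
  induction n with
  | zero =>
    intro k hk
    show (if k = 0 then (1 : ℤ) else 0) = 0
    rw [if_neg (by omega)]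
  | succ n ih =>
    intro k hk
    rw [e_succ, ih k hk, ih (k - 1) (by omega)]
    ring

lemma e_gt (n : ℕ) : ∀ k : ℤ, (n : ℤ) < k → e n k = 0 := by
  induction n with
  | zero =>
    intro k hk
    show (if k = 0 then (1 : ℤ) else 0) = 0
    rw [if_neg (by push_cast at hk; omega)]
  | succ n ih =>
    intro k hk
    push_cast at hk
    rw [e_succ, ih k (by omega), ih (k - 1) (by omega)]
    ring

lemma e_nonneg (n : ℕ) : ∀ k : ℤ, 0 ≤ e n k := by
  induction n with
  | zero =>
    intro k
    show (0 : ℤ) ≤ (if k = 0 then (1 : ℤ) else 0)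
    split_ifs <;> norm_num
  | succ n ih =>
    intro k
    rcases lt_or_ge k 0 with h | h
    · rw [e_neg _ k h]
    · rcases lt_or_ge ((n : ℤ) + 1) k with h' | h'
      · rw [e_gt _ k (by push_cast; omega)]
      · rw [e_succ]
        exact add_nonneg (mul_nonneg (by omega) (ih _)) (mul_nonneg (by omega) (ih _))

lemma e_cast (n : ℕ) : ∀ k : ℕ, ((E n k : ℕ) : ℤ) = e n k := by
  induction n with
  | zero =>
    intro k
    show ((E 0 k : ℕ) : ℤ) = (if (k : ℤ) = 0 then (1 : ℤ) else 0)
    rcases k with _ | k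
    · simp [E]
    · rw [if_neg (by push_cast; omega)]
      simp [E]
  | succ n ih =>
    intro k
    rcases k with _ | k
    · rw [e_succ, e_neg n _ (by norm_num : ((0 : ℕ) : ℤ) - 1 < 0), ← ih 0]
      simp [E]
    · rw [e_succ]
      have h1 : (((k + 1 : ℕ) : ℤ) - 1) = (k : ℤ) := by push_cast; ring
      rw [h1, ← ih (k + 1), ← ih k]
      show (((k + 2) * E n (k + 1) + (n + 1 - k) * E n k : ℕ) : ℤ) = _
      rcases le_or_gt k (n + 1) with h | h
      · push_cast [Nat.cast_sub h]
        ring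
      · have h2 : ((E n k : ℕ) : ℤ) = 0 := by
          rw [ih k]
          exact e_gt n _ (by push_cast at h ⊢; omega)
        have h3 : E n k = 0 := by exact_mod_cast h2
        rw [h3]
        push_cast
        ring

/-- strong log-concavity of the rows -/
lemma slc (n : ℕ) : ∀ a b : ℤ, a ≤ b → e n (a - 1) * e n (b + 1) ≤ e n a * e n b := by
  induction n with
  | zero =>
    intro a b hab
    have h0 : e 0 (a - 1) * e 0 (b + 1) = 0 := by
      show (if a - 1 = 0 then (1 : ℤ) else 0) * (if b + 1 = 0 then (1 : ℤ) else 0) = 0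
      split_ifs with h1 h2
      · omega
      · norm_num
      · norm_num
      · norm_num
    rw [h0]
    exact mul_nonneg (e_nonneg _ _) (e_nonneg _ _)
  | succ n ih =>
    intro a b hab
    rcases lt_or_ge (a - 1) 0 with h | ha
    · rw [e_neg _ _ h, zero_mul]
      exact mul_nonneg (e_nonneg _ _) (e_nonneg _ _)
    rcases lt_or_ge ((n : ℤ) + 1) (b + 1) with h | hb
    · rw [e_gt (n + 1) (b + 1) (by push_cast; omega), mul_zero]
      exact mul_nonneg (e_nonneg _ _) (e_nonneg _ _)
    have hpt := ih a b hab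
    have hus := ih (a - 1) (b - 1) (by omega)
    have hut := ih (a - 1) b (by omega)
    have hps : e n (a - 1) * e n b ≤ e n a * e n (b - 1) := by
      rcases lt_or_ge a b with h | h
      · have := ih a (b - 1) (by omega)
        rwa [show b - 1 + 1 = b by ring] at this
      · have : a = b := le_antisymm hab h
        rw [this]
        exact le_of_eq (by ring)
    rw [show b - 1 + 1 = b by ring] at hus
    rw [e_succ n (a - 1), e_succ n (b + 1), e_succ n a, e_succ n b,
      show b + 1 - 1 = b by ring]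
    have hu := e_nonneg n (a - 1 - 1)
    have hp := e_nonneg n (a - 1)
    have hq := e_nonneg n a
    have hr := e_nonneg n (b - 1)
    have hs := e_nonneg n b
    have ht := e_nonneg n (b + 1)
    generalize e n (a - 1 - 1) = u at *
    generalize e n (a - 1) = p at *
    generalize e n a = q at *
    generalize e n (b - 1) = r at *
    generalize e n b = s at *
    generalize e n (b + 1) = t at *
    generalize hN : (n : ℤ) = N at *
    have hps0 : 0 ≤ p * s := mul_nonneg hp hs
    have hamgm : 2 * (p * s) ≤ q * s + p * r := by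
      have h1 : (p * s) * (p * s) ≤ (p * s) * (q * r) := mul_le_mul_of_nonneg_left hps hps0
      have h2 : (2 * (p * s)) ^ 2 ≤ (q * s + p * r) ^ 2 := by
        nlinarith [sq_nonneg (q * s - p * r)]
      exact (sq_le_sq₀ (by positivity) (by positivity)).mp h2
    have k1 : 0 ≤ a * (b + 2) * (q * s - p * t) :=
      mul_nonneg (mul_nonneg (by omega) (by omega)) (by linarith)
    have k2 : 0 ≤ (N + 2 - a + 1) * (b + 2) * (p * s - u * t) :=
      mul_nonneg (mul_nonneg (by omega) (by omega)) (by linarith)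
    have k3 : 0 ≤ (N + 2 - a + 1) * (N + 2 - b - 1) * (p * r - u * s) :=
      mul_nonneg (mul_nonneg (by omega) (by omega)) (by linarith)
    have k4 : 0 ≤ (b - a + 1) * (q * s + p * r - 2 * (p * s)) :=
      mul_nonneg (by omega) (by linarith)
    have k5 : 0 ≤ (a + 1) * (N + 2 - b) * (q * r - p * s) :=
      mul_nonneg (mul_nonneg (by omega) (by omega)) (by linarith)
    have key : ((a + 1) * q + (N + 2 - a) * p) * ((b + 1) * s + (N + 2 - b) * r) -
        ((a - 1 + 1) * p + (N + 2 - (a - 1)) * u) * ((b + 1 + 1) * t + (N + 2 - (b + 1)) * s) =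
        a * (b + 2) * (q * s - p * t) + (N + 2 - a + 1) * (b + 2) * (p * s - u * t) +
        (N + 2 - a + 1) * (N + 2 - b - 1) * (p * r - u * s) +
        (b - a + 1) * (q * s + p * r - 2 * (p * s)) +
        (a + 1) * (N + 2 - b) * (q * r - p * s) := by ring
    linarith

/-- the minors of two consecutive rows -/
def m (n : ℕ) (a b : ℤ) : ℤ := e n a * e (n + 1) b - e n b * e (n + 1) a

lemma m_succ (n : ℕ) (a b : ℤ) : m (n + 1) a b =
    (a + 1) * (b + 1) * m n a b + (a + 1) * ((n : ℤ) + 2 - b) * m n a (b - 1) +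
    ((n : ℤ) + 2 - a) * (b + 1) * m n (a - 1) b +
    ((n : ℤ) + 2 - a) * ((n : ℤ) + 2 - b) * m n (a - 1) (b - 1) +
    (e (n + 1) a * e (n + 1) (b - 1) - e (n + 1) b * e (n + 1) (a - 1)) := by
  have h1 : e (n + 1 + 1) b = (b + 1) * e (n + 1) b + ((n : ℤ) + 3 - b) * e (n + 1) (b - 1) := by
    rw [e_succ]
    push_cast
    ring
  have h2 : e (n + 1 + 1) a = (a + 1) * e (n + 1) a + ((n : ℤ) + 3 - a) * e (n + 1) (a - 1) := by
    rw [e_succ]
    push_cast
    ring
  have h3 := e_succ n a
  have h4 := e_succ n b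
  unfold m
  rw [h1, h2]
  generalize e (n + 1) (a - 1) = y1 at *
  generalize e (n + 1) (b - 1) = y2 at *
  rw [h3, h4]
  ring

lemma m_nonneg (n : ℕ) : ∀ a b : ℤ, a ≤ b → 0 ≤ m n a b := by
  induction n with
  | zero =>
    intro a b hab
    rcases eq_or_lt_of_le hab with rfl | hab
    · unfold m
      exact le_of_eq (by ring)
    have h0 : e 0 b * e (0 + 1) a = 0 := by
      rcases eq_or_ne b 0 with h | h
      · rw [e_neg (0 + 1) a (by omega), mul_zero]
      · have : e 0 b = 0 := by
          show (if b = 0 then (1 : ℤ) else 0) = 0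
          rw [if_neg h]
        rw [this, zero_mul]
    unfold m
    rw [h0, sub_zero]
    exact mul_nonneg (e_nonneg _ _) (e_nonneg _ _)
  | succ n ih =>
    intro a b hab
    rcases eq_or_lt_of_le hab with rfl | hab
    · unfold m
      exact le_of_eq (by ring)
    rcases lt_or_ge a 0 with h | ha
    · unfold m
      rw [e_neg _ a h, e_neg _ a h]
      exact le_of_eq (by ring)
    rcases lt_or_ge ((n : ℤ) + 2) b with h | hb
    · unfold m
      rw [e_gt (n + 1) b (by push_cast; omega), e_gt (n + 1 + 1) b (by push_cast; omega)]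
      exact le_of_eq (by ring)
    rw [m_succ]
    have h1 := ih a b hab.le
    have h2 := ih a (b - 1) (by omega)
    have h3 := ih (a - 1) b (by omega)
    have h4 := ih (a - 1) (b - 1) (by omega)
    have h5 := slc (n + 1) a (b - 1) (by omega)
    rw [show b - 1 + 1 = b by ring] at h5
    have k1 := mul_nonneg (mul_nonneg (by omega : (0 : ℤ) ≤ a + 1) (by omega : 0 ≤ b + 1)) h1
    have k2 := mul_nonneg (mul_nonneg (by omega : (0 : ℤ) ≤ a + 1)
      (by omega : 0 ≤ (n : ℤ) + 2 - b)) h2
    have k3 := mul_nonneg (mul_nonneg (by omega : (0 : ℤ) ≤ (n : ℤ) + 2 - a)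
      (by omega : 0 ≤ b + 1)) h3
    have k4 := mul_nonneg (mul_nonneg (by omega : (0 : ℤ) ≤ (n : ℤ) + 2 - a)
      (by omega : 0 ≤ (n : ℤ) + 2 - b)) h4
    nlinarith

theorem m_mono (n : ℕ) (j : ℤ) (hj : 0 ≤ j) :
    (j + 1) * (j + 2) * m n j (j + 1) ≤ m (n + 1) j (j + 1) := by
  rcases lt_or_ge ((n : ℤ) + 2) (j + 1) with h | hb
  · have h1 : m n j (j + 1) = 0 := by
      unfold m
      rw [e_gt n (j + 1) (by omega), e_gt (n + 1) (j + 1) (by push_cast; omega)]
      ring
    rw [h1, mul_zero]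
    exact m_nonneg _ _ _ (by omega)
  · rw [m_succ, show j + 1 - 1 = j by ring]
    have h0 : m n j j = 0 := by unfold m; ring
    have h3 := m_nonneg n (j - 1) (j + 1) (by omega)
    have h4 := m_nonneg n (j - 1) j (by omega)
    have h5 := slc (n + 1) j j le_rfl
    rw [h0]
    have k3 := mul_nonneg (mul_nonneg (by omega : (0 : ℤ) ≤ (n : ℤ) + 2 - j)
      (by omega : 0 ≤ j + 1 + 1)) h3
    have k4 := mul_nonneg (mul_nonneg (by omega : (0 : ℤ) ≤ (n : ℤ) + 2 - j)
      (by omega : 0 ≤ (n : ℤ) + 2 - (j + 1))) h4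
    nlinarith

lemma D_one (i j : ℕ) : D i j 1 = m i j (j + 1) := by
  unfold D m
  rw [Matrix.det_fin_two]
  simp only [Matrix.of_apply, Fin.val_zero, Fin.val_one, add_zero]
  rw [e_cast, e_cast, e_cast, e_cast]
  push_cast
  ring

lemma D_zero (i j : ℕ) : D i j 0 = e i j := by
  unfold D
  rw [Matrix.det_fin_one]
  simp only [Matrix.of_apply, Fin.val_zero, add_zero]
  rw [e_cast]

theorem mono_zero (i j : ℕ) : ((j : ℤ) + 1) * D i j 0 ≤ D (i + 1) j 0 := by
  rw [D_zero, D_zero, e_succ]
  rcases le_or_gt (j : ℤ) ((i : ℤ) + 2) with h | h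
  · have := mul_nonneg (by omega : (0 : ℤ) ≤ (i : ℤ) + 2 - j) (e_nonneg i ((j : ℤ) - 1))
    linarith
  · rw [e_gt i ((j : ℤ) - 1) (by omega)]
    linarith

theorem mono_one (i j : ℕ) : ((j : ℤ) + 1) * ((j : ℤ) + 2) * D i j 1 ≤ D (i + 1) j 1 := by
  rw [D_one, D_one]
  exact m_mono i j (by positivity)

lemma D_nonneg_zero (i j : ℕ) : 0 ≤ D i j 0 := by rw [D_zero]; exact e_nonneg _ _

lemma D_nonneg_one (i j : ℕ) : 0 ≤ D i j 1 := by rw [D_one]; exact m_nonneg _ _ _ (by omega)

end Pool.Agent.Eul
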